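import Pool.Agent.H66.ER2.Targets
import Pool.Agent.H48.ER.Lib

/-!
# MP_816b90_co, board er2_modules, row GC2
-/

set_option autoImplicit false
set_option linter.unusedVariables false

namespace Pool.Agent.H79.ER2

open Pool.Agent.H48.ER Pool.Agent.H52.ER2 Pool.Agent.H66.ER2

variable {V : Type} {G : SimpleGraph V}

theorem inj_of_adj {n : ℕ} (hn : 3 ≤ n) (g : ℕ → V)
    (h : ∀ i j, i ≤ n → j ≤ n → (G.Adj (g i) (g j) ↔ i + 1 = j ∨ j + 1 = i)) :
    ∀ i j, i ≤ n → j ≤ n → g i = g j → i = j := by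
  have key : ∀ i j, i ≤ n → j ≤ n → i < j → g i ≠ g j := by
    intro i j hi hj hij e
    rcases Nat.eq_zero_or_pos i with h0 | h0
    · rcases Nat.lt_or_ge j n with h1 | h1
      · have h2 := (h j (j + 1) hj (by omega)).2 (Or.inl rfl)
        rw [← e] at h2
        have h3 := (h i (j + 1) hi (by omega)).1 h2
        omega
      · have h2 := (h i 1 hi (by omega)).2 (by omega)
        rw [e] at h2
        have h3 := (h j 1 hj (by omega)).1 h2
        omega
    · have h2 := (h i (i - 1) hi (by omega)).2 (by omega)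
      rw [e] at h2
      have h3 := (h j (i - 1) hj (by omega)).1 h2
      omega
  intro i j hi hj e
  rcases lt_trichotomy i j with h1 | h1 | h1
  · exact absurd e (key i j hi hj h1)
  · exact h1
  · exact absurd e.symm (key j i hj hi h1)

/-- an outer path with three edges -/
theorem ou3 {v p0 p1 p2 p3 : V} (h01 : G.Adj p0 p1) (h12 : G.Adj p1 p2) (h23 : G.Adj p2 p3)
    (n02 : ¬ G.Adj p0 p2) (n03 : ¬ G.Adj p0 p3) (n13 : ¬ G.Adj p1 p3) (v0 : G.Adj v p0)
    (v3 : G.Adj v p3) (v1 : ¬ G.Adj v p1) (v2 : ¬ G.Adj v p2) :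
    ∃ z, Ou G v 3 z := by
  have hadj : ∀ i j, i ≤ 3 → j ≤ 3 →
      (G.Adj ((fun i => if i = 0 then p0 else if i = 1 then p1 else if i = 2 then p2 else p3) i)
        ((fun i => if i = 0 then p0 else if i = 1 then p1 else if i = 2 then p2 else p3) j) ↔
        i + 1 = j ∨ j + 1 = i) := by
    intro i j hi hj
    have m02 : ¬ G.Adj p2 p0 := fun h => n02 h.symm
    have m03 : ¬ G.Adj p3 p0 := fun h => n03 h.symm
    have m13 : ¬ G.Adj p3 p1 := fun h => n13 h.symm
    interval_cases i <;> interval_cases j <;>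
      simp [h01, h01.symm, h12, h12.symm, h23, h23.symm, n02, n03, n13, m02, m03, m13]
  refine ⟨fun i => if i = 0 then p0 else if i = 1 then p1 else if i = 2 then p2 else p3,
    ⟨inj_of_adj le_rfl _ hadj, hadj⟩, by norm_num, by simpa using v0, by simpa using v3, ?_⟩
  intro i h0 h3
  have hi : i = 1 ∨ i = 2 := by omega
  rcases hi with rfl | rfl
  · refine ⟨?_, by simpa using v1⟩
    intro h
    simp only [one_ne_zero, if_false, if_true] at h
    exact v2 (h ▸ h12)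
  · refine ⟨?_, by simpa using v2⟩
    intro h
    have h' : p2 = v := by simpa using h
    exact v1 (h' ▸ h12.symm)

/-- an outer path with five edges -/
theorem ou5 {v p0 p1 p2 p3 p4 p5 : V} (h01 : G.Adj p0 p1) (h12 : G.Adj p1 p2)
    (h23 : G.Adj p2 p3) (h34 : G.Adj p3 p4) (h45 : G.Adj p4 p5)
    (n02 : ¬ G.Adj p0 p2) (n03 : ¬ G.Adj p0 p3) (n04 : ¬ G.Adj p0 p4) (n05 : ¬ G.Adj p0 p5)
    (n13 : ¬ G.Adj p1 p3) (n14 : ¬ G.Adj p1 p4) (n15 : ¬ G.Adj p1 p5)
    (n24 : ¬ G.Adj p2 p4) (n25 : ¬ G.Adj p2 p5) (n35 : ¬ G.Adj p3 p5)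
    (v0 : G.Adj v p0) (v5 : G.Adj v p5) (v1 : ¬ G.Adj v p1) (v2 : ¬ G.Adj v p2)
    (v3 : ¬ G.Adj v p3) (v4 : ¬ G.Adj v p4) :
    ∃ z, Ou G v 5 z := by
  have hadj : ∀ i j, i ≤ 5 → j ≤ 5 →
      (G.Adj ((fun i => if i = 0 then p0 else if i = 1 then p1 else if i = 2 then p2 else
          if i = 3 then p3 else if i = 4 then p4 else p5) i)
        ((fun i => if i = 0 then p0 else if i = 1 then p1 else if i = 2 then p2 else
          if i = 3 then p3 else if i = 4 then p4 else p5) j) ↔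
        i + 1 = j ∨ j + 1 = i) := by
    intro i j hi hj
    have m02 : ¬ G.Adj p2 p0 := fun h => n02 h.symm
    have m03 : ¬ G.Adj p3 p0 := fun h => n03 h.symm
    have m04 : ¬ G.Adj p4 p0 := fun h => n04 h.symm
    have m05 : ¬ G.Adj p5 p0 := fun h => n05 h.symm
    have m13 : ¬ G.Adj p3 p1 := fun h => n13 h.symm
    have m14 : ¬ G.Adj p4 p1 := fun h => n14 h.symm
    have m15 : ¬ G.Adj p5 p1 := fun h => n15 h.symm
    have m24 : ¬ G.Adj p4 p2 := fun h => n24 h.symm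
    have m25 : ¬ G.Adj p5 p2 := fun h => n25 h.symm
    have m35 : ¬ G.Adj p5 p3 := fun h => n35 h.symm
    interval_cases i <;> interval_cases j <;>
      simp [h01, h01.symm, h12, h12.symm, h23, h23.symm, h34, h34.symm, h45, h45.symm,
        n02, n03, n04, n05, n13, n14, n15, n24, n25, n35,
        m02, m03, m04, m05, m13, m14, m15, m24, m25, m35]
  refine ⟨fun i => if i = 0 then p0 else if i = 1 then p1 else if i = 2 then p2 else
          if i = 3 then p3 else if i = 4 then p4 else p5,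
    ⟨inj_of_adj (by norm_num) _ hadj, hadj⟩, by norm_num, by simpa using v0, by simpa using v5, ?_⟩
  intro i h0 h3
  have hi : i = 1 ∨ i = 2 ∨ i = 3 ∨ i = 4 := by omega
  rcases hi with rfl | rfl | rfl | rfl
  · refine ⟨?_, by simpa using v1⟩
    intro h
    have h' : p1 = v := by simpa using h
    exact v2 (h' ▸ h12)
  · refine ⟨?_, by simpa using v2⟩
    intro h
    have h' : p2 = v := by simpa using h
    exact v1 (h' ▸ h12.symm)
  · refine ⟨?_, by simpa using v3⟩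
    intro h
    have h' : p3 = v := by simpa using h
    exact v2 (h' ▸ h23.symm)
  · refine ⟨?_, by simpa using v4⟩
    intro h
    have h' : p4 = v := by simpa using h
    exact v3 (h' ▸ h34.symm)

theorem core (hOUE : T_OUE) (hGMJ : T_GMJ)
    {v : V} {k : ℕ} {z : ℕ → V} {l r n m : ℕ} {a1 x b1 y a2 b2 a3 b3 : V} {L R P Q : Set V}
    (g : GCx G v k z l r n m a1 x b1 y a2 b2 a3 b3 L R P Q) (on : GOn G v k z x y L R P Q)
    (hl : l = 0) (h12 : G.Adj (z 1) a2) (b' : V) (hb : b' = b2 ∨ b' = b3)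
    (hz2 : ∀ w, w ∈ P ∨ w ∈ Q → (G.Adj (z 2) w ↔ w = b')) (hvb' : ¬ G.Adj v b')
    (hvb1 : G.Adj v b1) : False := by
  subst hl
  have s := g.sp
  obtain ⟨ek, h4⟩ := hOUE V G v k z g.cls.noh g.f1 g.so.toOu
  have hr : 1 ≤ r := by
    obtain ⟨t, ht⟩ := s.oLR
    omega
  have hn : 1 ≤ n := by
    obtain ⟨t, ht⟩ := s.oP
    omega
  have hm : 1 ≤ m := by
    obtain ⟨t, ht⟩ := s.oQ
    omega
  obtain ⟨hax, hL⟩ := s.ipL.eq_of_zero
  subst hax
  have ma1 : a1 ∈ L := s.ipL.left_mem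
  have mb1 : b1 ∈ R := s.ipR.left_mem
  have my : y ∈ R := s.ipR.right_mem
  have ma2 : a2 ∈ P := s.ipP.left_mem
  have mb2 : b2 ∈ P := s.ipP.right_mem
  have ma3 : a3 ∈ Q := s.ipQ.left_mem
  have mb3 : b3 ∈ Q := s.ipQ.right_mem
  have eb1y : b1 ≠ y := s.ipR.ne hr
  have ea2b2 : a2 ≠ b2 := s.ipP.ne hn
  have ea3b3 : a3 ≠ b3 := s.ipQ.ne hm
  have dLP : ∀ u ∈ L, ∀ w ∈ P, u ≠ w := fun u hu w hw e => Set.disjoint_left.1 s.dLP hu (e ▸ hw)
  have dLQ : ∀ u ∈ L, ∀ w ∈ Q, u ≠ w := fun u hu w hw e => Set.disjoint_left.1 s.dLQ hu (e ▸ hw)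
  have dLR : ∀ u ∈ L, ∀ w ∈ R, u ≠ w := fun u hu w hw e => Set.disjoint_left.1 s.dLR hu (e ▸ hw)
  have dRP : ∀ u ∈ R, ∀ w ∈ P, u ≠ w := fun u hu w hw e => Set.disjoint_left.1 s.dRP hu (e ▸ hw)
  have dRQ : ∀ u ∈ R, ∀ w ∈ Q, u ≠ w := fun u hu w hw e => Set.disjoint_left.1 s.dRQ hu (e ▸ hw)
  have dPQ : ∀ u ∈ P, ∀ w ∈ Q, u ≠ w := fun u hu w hw e => Set.disjoint_left.1 s.dPQ hu (e ▸ hw)
  have vP : ∀ w ∈ P, w ∈ vS L R P Q := fun w hw => Or.inl (Or.inr hw)
  have vQ : ∀ w ∈ Q, w ∈ vS L R P Q := fun w hw => Or.inr hw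
  have vR : ∀ w ∈ R, w ∈ vS L R P Q := fun w hw => Or.inl (Or.inl (Or.inr hw))
  have tyP : ∀ w ∈ P, G.Adj v w → Ty0 G k z w := fun w hw h =>
    g.t0 w (vP w hw) h (fun h' => dLP _ ma1 _ hw (on.1 w (vP w hw) h').symm)
      (fun h' => dRP _ my _ hw (on.2 w (vP w hw) h').symm)
  have tyQ : ∀ w ∈ Q, G.Adj v w → Ty0 G k z w := fun w hw h =>
    g.t0 w (vQ w hw) h (fun h' => dLQ _ ma1 _ hw (on.1 w (vQ w hw) h').symm)
      (fun h' => dRQ _ my _ hw (on.2 w (vQ w hw) h').symm)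
  have tyb1 : Ty0 G k z b1 :=
    g.t0 b1 (vR _ mb1) hvb1 (fun h' => dLR _ ma1 _ mb1 (on.1 b1 (vR _ mb1) h').symm)
      (fun h' => eb1y (on.2 b1 (vR _ mb1) h'))
  have w1 : z 1 ∈ Wz k z := ⟨1, by omega, by omega, rfl⟩
  have w2 : z 2 ∈ Wz k z := ⟨2, by omega, by omega, rfl⟩
  have nv1 : ¬ G.Adj v (z 1) := (g.so.int 1 (by omega) (by omega)).2
  have nv2 : ¬ G.Adj v (z 2) := (g.so.int 2 (by omega) (by omega)).2
  have a12z : G.Adj (z 1) (z 2) := (g.so.pf.adj 1 2 (by omega) (by omega)).2 (Or.inl rfl)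
  have hv2 : ¬ G.Adj v a2 := fun h => tyP a2 ma2 h (z 1) w1 h12.symm
  have hT := (hGMJ V G v k z 0 r n m a1 a1 b1 y a2 b2 a3 b3 L R P Q g).1
  have hv13 : G.Adj v a1 ∧ G.Adj v a3 := by
    rcases hT with h | h | h
    · exact absurd h.2 hv2
    · exact h
    · exact absurd h.1 hv2
  obtain ⟨hv1, hv3⟩ := hv13
  have t3 := tyQ a3 ma3 hv3
  have n1a3 : ¬ G.Adj (z 1) a3 := fun h => t3 _ w1 h.symm
  have n2a3 : ¬ G.Adj (z 2) a3 := fun h => t3 _ w2 h.symm
  have n1b1 : ¬ G.Adj (z 1) b1 := fun h => tyb1 _ w1 h.symm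
  have n2b1 : ¬ G.Adj (z 2) b1 := fun h => tyb1 _ w2 h.symm
  have a1z1 : G.Adj a1 (z 1) := g.hx.2.1
  have hodd3 : ¬ ∃ z, Ou G v 3 z := by
    rintro ⟨z', hz'⟩
    obtain ⟨t, ht⟩ := (hOUE V G v 3 z' g.cls.noh g.f1 hz').1
    omega
  have hodd5 : ¬ ∃ z, Ou G v 5 z := by
    rintro ⟨z', hz'⟩
    obtain ⟨t, ht⟩ := (hOUE V G v 5 z' g.cls.noh g.f1 hz').1
    omega
  have a23 : G.Adj a2 a3 := (s.ePQ _ ma2 _ ma3).2 (Or.inl ⟨rfl, rfl⟩)
  have na3b1 : ¬ G.Adj a3 b1 := fun h => ea3b3 ((s.eRQ _ mb1 _ ma3).1 h.symm).2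
  have na2b1 : ¬ G.Adj a2 b1 := fun h => ea2b2 ((s.eRP _ mb1 _ ma2).1 h.symm).2
  have na1b1 : ¬ G.Adj a1 b1 := s.eLR _ ma1 _ mb1
  have mb' : b' ∈ P ∨ b' ∈ Q := by
    rcases hb with rfl | rfl
    · exact Or.inl mb2
    · exact Or.inr mb3
  have z2b' : G.Adj (z 2) b' := (hz2 b' mb').2 rfl
  have b'b1 : G.Adj b' b1 := by
    rcases hb with rfl | rfl
    · exact ((s.eRP _ mb1 _ mb2).2 ⟨rfl, rfl⟩).symm
    · exact ((s.eRQ _ mb1 _ mb3).2 ⟨rfl, rfl⟩).symm
  have na1b' : ¬ G.Adj a1 b' := by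
    rcases hb with rfl | rfl
    · exact fun h => ea2b2 ((s.eLP _ ma1 _ mb2).1 h).2.symm
    · exact fun h => ea3b3 ((s.eLQ _ ma1 _ mb3).1 h).2.symm
  have ea2b' : a2 ≠ b' := by
    rcases hb with rfl | rfl
    · exact ea2b2
    · exact dPQ _ ma2 _ mb3
  have nz1b' : ¬ G.Adj (z 1) b' := fun h =>
    hodd3 (ou3 a1z1 h b'b1 na1b' na1b1 n1b1 hv1 hvb1 nv1 hvb')
  have n2a2 : ¬ G.Adj (z 2) a2 := fun h => ea2b' ((hz2 a2 (Or.inl ma2)).1 h)
  have na3b' : ¬ G.Adj a3 b' := by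
    intro h
    rcases hb with rfl | rfl
    · rcases (s.ePQ _ mb2 _ ma3).1 h.symm with h1 | h1
      · exact ea2b2 h1.1.symm
      · exact ea3b3 h1.2
    · have hne : b' ≠ v := fun e => g.nv (e ▸ vQ _ mb3)
      have h5 := g.f1 b' hne (fun h => hvb' h.symm) a3 b1 hv3 hvb1 h.symm b'b1
        (fun e => dRQ _ mb1 _ ma3 e.symm)
      exact na3b1 h5
  have na2b' : ¬ G.Adj a2 b' := by
    intro h
    rcases hb with rfl | rfl
    · exact hodd3 (ou3 a23.symm h b'b1 na3b' na3b1 na2b1 hv3 hvb1 hv2 hvb')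
    · rcases (s.ePQ _ ma2 _ mb3).1 h with h1 | h1
      · exact ea3b3 h1.2.symm
      · exact ea2b2 h1.1
  exact hodd5 (ou5 a23.symm h12.symm a12z z2b' b'b1 (fun h => n1a3 h.symm)
    (fun h => n2a3 h.symm) na3b' na3b1 (fun h => n2a2 h.symm) na2b' na2b1 nz1b' n1b1 n2b1
    hv3 hvb1 hv2 nv1 nv2 hvb')

theorem pf_GC2 (hEVN : T_EVN) (hASD : T_ASD) (hOUE : T_OUE) (hGMJ : T_GMJ) (hGFL : T_GFL)
    (hGDP : T_GDP) (hGSD : T_GSD) : T_GC2 := by
  intro V G v k z l r n m a1 x b1 y a2 b2 a3 b3 L R P Q g on hl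
  have s := g.sp
  obtain ⟨⟨tk, htk⟩, h4⟩ := hOUE V G v k z g.cls.noh g.f1 g.so.toOu
  have hr : 1 ≤ r := by
    obtain ⟨t, ht⟩ := s.oLR
    omega
  have hn : 1 ≤ n := by
    obtain ⟨t, ht⟩ := s.oP
    omega
  have hm : 1 ≤ m := by
    obtain ⟨t, ht⟩ := s.oQ
    omega
  have ma2 : a2 ∈ P := s.ipP.left_mem
  have mb2 : b2 ∈ P := s.ipP.right_mem
  have ma3 : a3 ∈ Q := s.ipQ.left_mem
  have mb3 : b3 ∈ Q := s.ipQ.right_mem
  have ea2b2 : a2 ≠ b2 := s.ipP.ne hn
  have ea3b3 : a3 ≠ b3 := s.ipQ.ne hm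
  have dPQ : ∀ u ∈ P, ∀ w ∈ Q, u ≠ w := fun u hu w hw e => Set.disjoint_left.1 s.dPQ hu (e ▸ hw)
  obtain ⟨gf, gs, gon⟩ := hGFL V G v k z l r n m a1 x b1 y a2 b2 a3 b3 L R P Q g
  obtain ⟨onf, ons⟩ := gon on
  -- the b-side
  obtain ⟨i', h0i, hik, hki, ⟨ti, hti⟩, hno, hcase⟩ :=
    hGSD V G v k (fun i => z (k - i)) r l n m b1 y a1 x b2 a2 b3 a3 R L P Q gf onf hr
  have e2 : k - i' = 2 := by omega
  have hb : ∃ b', (b' = b2 ∨ b' = b3) ∧ (∀ w ∈ P ∪ Q, G.Adj (z 2) w ↔ w = b') ∧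
      ¬ G.Adj v b' ∧ G.Adj v b1 := by
    rcases hcase with h | h
    · refine ⟨b2, Or.inl rfl, ?_, h.2.1, h.2.2.1⟩
      intro w hw
      have := h.1 w hw
      simpa only [e2] using this
    · refine ⟨b3, Or.inr rfl, ?_, h.2.1, h.2.2.1⟩
      intro w hw
      have := h.1 w hw
      simpa only [e2] using this
  obtain ⟨b', hb', hz2, hvb', hvb1⟩ := hb
  have hz3 : ∀ j, 2 < j → j < k → ∀ w ∈ P ∪ Q, ¬ G.Adj (z j) w := by
    intro j h2 hjk w hw
    have := hno (k - j) (by omega) (by omega) w hw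
    have e : k - (k - j) = j := by omega
    simpa only [e] using this
  have ea2b' : a2 ≠ b' := by
    rcases hb' with rfl | rfl
    · exact ea2b2
    · exact dPQ _ ma2 _ mb3
  have ea3b' : a3 ≠ b' := by
    rcases hb' with rfl | rfl
    · exact fun e => dPQ _ mb2 _ ma3 e.symm
    · exact ea3b3
  have hax : a1 = x := by
    have h := s.ipL
    rw [hl] at h
    exact h.eq_of_zero.1
  -- the a-side
  obtain ⟨i, d, D, h0, hik', hbef, hnot, acx, hvD, hd, hDL⟩ :=
    hGDP V G v k z l r n m a1 x b1 y a2 b2 a3 b3 L R P Q g on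
  have hdi := hd hl
  have hi2 : i ≤ 2 := by
    by_contra hcon
    obtain ⟨w, hw, hzw⟩ := acx.see
    exact hz3 i (by omega) hik' w hw hzw
  have hz1 : G.Adj (z 1) a2 ∨ G.Adj (z 1) a3 := by
    have hi12 : i = 1 ∨ i = 2 := by omega
    rcases hi12 with rfl | rfl
    · subst hdi
      rcases hASD V G 1 n m a1 (z 1) a2 b2 a3 b3 D P Q g.cls.noh acx with h | h | h | h
      · exact Or.inl ((h a2 (Or.inl ma2)).2 rfl)
      · exact Or.inr ((h a3 (Or.inr ma3)).2 rfl)
      · rcases h with h | h | h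
        · exact Or.inl h.2
        · exact Or.inr h.2
        · exact Or.inl h.1
      · obtain ⟨i1, j1, g1, g2, R1, R2, ht⟩ := h
        by_cases e1 : g1 = a2
        · exact Or.inl ((ht.nb a2 (Or.inl ma2)).2 (Or.inl e1.symm))
        by_cases e2 : g2 = a3
        · exact Or.inr ((ht.nb a3 (Or.inr ma3)).2 (Or.inr e2.symm))
        exfalso
        have hi1 : 1 ≤ i1 := by
          rcases Nat.eq_zero_or_pos i1 with h | h
          · have h' := ht.ip1
            rw [h] at h'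
            exact absurd h'.eq_of_zero.1.symm e1
          · exact h
        have hj1 : 1 ≤ j1 := by
          rcases Nat.eq_zero_or_pos j1 with h | h
          · have h' := ht.ip2
            rw [h] at h'
            exact absurd h'.eq_of_zero.1.symm e2
          · exact h
        have hsub1 : R1 ⊆ P ∪ Q := fun w hw => ht.un ▸ Or.inl hw
        have hsub2 : R2 ⊆ P ∪ Q := fun w hw => ht.un ▸ Or.inr hw
        have hD1 : Disjoint D R1 := acx.dis.mono_right hsub1
        have hD2 : Disjoint D R2 := acx.dis.mono_right hsub2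
        have mz : z 1 ∈ D := acx.ipD.right_mem
        have ma1D : a1 ∈ D := acx.ipD.left_mem
        have mg1 : g1 ∈ R1 := ht.ip1.right_mem
        have mg2 : g2 ∈ R2 := ht.ip2.right_mem
        have m1a : a2 ∈ R1 := ht.ip1.left_mem
        have m2a : a3 ∈ R2 := ht.ip2.left_mem
        have hne1 : a1 ≠ z 1 := acx.ipD.ne acx.hl
        have dR : ∀ u ∈ R1, ∀ w ∈ R2, u ≠ w := fun u hu w hw e =>
          Set.disjoint_left.1 ht.dis hu (e ▸ hw)
        have hpr := mk3 acx.ipD.rev ht.ip1.rev ht.ip2.rev acx.hl hi1 hj1 hD1 hD2 ht.dis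
          (by
            intro u hu w hw
            constructor
            · intro h
              by_cases hu' : u = z 1
              · left
                refine ⟨hu', ?_⟩
                rw [hu'] at h
                rcases (ht.nb w (hsub1 hw)).1 h with h1 | h1
                · exact h1
                · exact absurd h1 (dR _ hw _ mg2)
              · right
                obtain ⟨h1, h2⟩ := acx.on u hu hu' w (hsub1 hw) h
                refine ⟨h1, ?_⟩
                rcases h2 with h2 | h2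
                · exact h2
                · exact absurd h2 (dR _ hw _ m2a)
            · rintro (⟨h1, h2⟩ | ⟨h1, h2⟩)
              · rw [h1, h2]
                exact (ht.nb g1 (hsub1 mg1)).2 (Or.inl rfl)
              · rw [h1, h2]
                exact acx.a12)
          (by
            intro u hu w hw
            constructor
            · intro h
              by_cases hu' : u = z 1
              · left
                refine ⟨hu', ?_⟩
                rw [hu'] at h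
                rcases (ht.nb w (hsub2 hw)).1 h with h1 | h1
                · exact absurd h1.symm (dR _ mg1 _ hw)
                · exact h1
              · right
                obtain ⟨h1, h2⟩ := acx.on u hu hu' w (hsub2 hw) h
                refine ⟨h1, ?_⟩
                rcases h2 with h2 | h2
                · exact absurd h2.symm (dR _ m1a _ hw)
                · exact h2
            · rintro (⟨h1, h2⟩ | ⟨h1, h2⟩)
              · rw [h1, h2]
                exact (ht.nb g2 (hsub2 mg2)).2 (Or.inr rfl)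
              · rw [h1, h2]
                exact acx.a13)
          (by
            intro u hu w hw
            rw [ht.adj u hu w hw]
            exact or_comm)
        have hev := (hEVN V G _ _ _ _ g.cls.noh hpr).2 g.cls.nop 0
        obtain ⟨t, ht'⟩ := hev
        simp only [Matrix.cons_val_zero] at ht'
        omega
    · exfalso
      have hx := g.hx
      have n2a1 : ¬ G.Adj a1 (z 2) := by
        rw [hax]
        exact hx.2.2 2 (by omega) (by omega)
      rcases hASD V G d n m a1 (z 2) a2 b2 a3 b3 D P Q g.cls.noh acx with h | h | h | h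
      · have h1 := (h a2 (Or.inl ma2)).2 rfl
        exact ea2b' ((hz2 a2 (Or.inl ma2)).1 h1)
      · have h1 := (h a3 (Or.inr ma3)).2 rfl
        exact ea3b' ((hz2 a3 (Or.inr ma3)).1 h1)
      · rcases h with h | h | h
        · exact n2a1 h.1.symm
        · exact n2a1 h.1.symm
        · exact ea2b' ((hz2 a2 (Or.inl ma2)).1 h.1)
      · obtain ⟨i1, j1, g1, g2, R1, R2, ht⟩ := h
        have hsub1 : R1 ⊆ P ∪ Q := fun w hw => ht.un ▸ Or.inl hw
        have hsub2 : R2 ⊆ P ∪ Q := fun w hw => ht.un ▸ Or.inr hw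
        have mg1 : g1 ∈ R1 := ht.ip1.right_mem
        have mg2 : g2 ∈ R2 := ht.ip2.right_mem
        have h1 := (hz2 g1 (hsub1 mg1)).1 ((ht.nb g1 (hsub1 mg1)).2 (Or.inl rfl))
        have h2 := (hz2 g2 (hsub2 mg2)).1 ((ht.nb g2 (hsub2 mg2)).2 (Or.inr rfl))
        exact Set.disjoint_left.1 ht.dis mg1 (by rw [h1, ← h2]; exact mg2)
  rcases hz1 with h | h
  · exact core hOUE hGMJ g on hl h b' hb' (fun w hw => hz2 w hw) hvb' hvb1
  · exact core hOUE hGMJ gs ons hl h b' hb'.symm (fun w hw => hz2 w hw.symm) hvb' hvb1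

end Pool.Agent.H79.ER2
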